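import Pool.Agent.STK.Main
import Pool.Agent.STK.Turn

/-!
# One unlimited stack and near read-once access: no complementation; two stacks, one turn: NP/poly

Nonuniform nondeterministic programs with stacks. `goodA` is a function of `N` variables whose
complement has read-once programs of polynomial size without stack. With one unlimited stack over
any alphabet the function itself needs `2 ^ (c N)` nodes, if each accepted input has an accepting run
on which at most `c N` variables are tested more than once, or with at most `(1 + c) N` tests, even if
`c N` bits are tested at once. With two stacks that turn only once (no push after a pop), acyclic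
read-once programs of polynomial size simulate all nondeterministic circuits of polynomial size.
-/

set_option autoImplicit false

namespace Pool.Agent.Results.MP_a77cad_lc.OneStack

open Pool.Agent.URG (VarA goodA deg)
open Pool.Agent.STK (Prog NandAccepts)
open Pool.Agent.CFT (FP)
open Pool.Agent.HPM.Fn (Coord)

/-- **Theorem.** There are constants `c > 0`, `e`, `L`, `κ` such that for all large `n`, with `N` the
number of variables of `goodA`, `n L ≤ N ≤ 2 n L`:
(1) the complement of `goodA` has a program without stack, with at most `N ^ κ` nodes and single tests,
in which every variable is tested at most once on every full run;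
(2) a program with ONE stack, over any alphabet, for `goodA`, with at most `r ≤ c N` tests on each
edge, such that each accepted input has an accepting run on which at most `r` variables are tested
more than once, or each accepted input has an accepting run with at most `N + r` tests, has at least
`2 ^ (c N)` nodes; the same holds for AND/OR circuits over literals (`FP`: an OR is a choice between
edges, an AND is a fork; loops are allowed), with proof trees in place of runs.
(3) With TWO stacks over the alphabet `{0, 1}` which turn only once (no path has a push after a pop)
every nondeterministic circuit with `M` inputs, `t` guessed bits and `|gs|` NAND gates has an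
equivalent acyclic program with single tests and at most `48 (M + t + |gs| + 1) ^ 2` nodes, in which
every variable is tested at most once on every full run. -/
theorem result :
    (∃ c : ℝ, 0 < c ∧ ∃ e L κ n0 : ℕ, ∀ n ≥ n0, Nonempty (Coord (deg n e)) ∧
      ∀ (β : Coord (deg n e)) (N : ℕ), N = Fintype.card (VarA n e L) →
      (n * L ≤ N ∧ N ≤ 2 * (n * L)) ∧
      (∃ (Q : Type) (_ : Fintype Q) (G : Prog (VarA n e L) 0 Empty Q), G.Blocks 1 ∧ G.ReadOnce ∧
        G.Computes (fun v => !goodA β v) ∧ Fintype.card Q ≤ N ^ κ) ∧
      (∀ (Γ Q : Type) [Fintype Q] (G : Prog (VarA n e L) 1 Γ Q) (r : ℕ), (r : ℝ) ≤ c * N →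
        G.Blocks r → G.FewRereads r ∨ G.Short r → G.Computes (goodA β) →
        (2 : ℝ) ^ (c * N) ≤ Fintype.card Q) ∧
      (∀ (Q : Type) [Fintype Q] (G : FP (VarA n e L) Q) (r : ℕ), (r : ℝ) ≤ c * N →
        G.Block r → G.FewRereads r ∨ G.Short r → G.Computes (goodA β) →
        (2 : ℝ) ^ (c * N) ≤ Fintype.card Q)) ∧
    ∀ (M t : ℕ) (gs : List (ℕ × ℕ)), ∃ (Q : Type) (_ : Fintype Q) (G : Prog (Fin M) 2 Bool Q),
      G.OneTurn ∧ G.Acyclic ∧ G.Blocks 1 ∧ G.ReadOnce ∧ (∀ x, G.Accepts x ↔ NandAccepts t gs x) ∧
      Fintype.card Q ≤ 48 * (M + t + gs.length + 1) ^ 2 :=
  ⟨Pool.Agent.STK.mainA, Pool.Agent.STK.two_turns⟩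

end Pool.Agent.Results.MP_a77cad_lc.OneStack
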